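import Pool.Agent.Helper21.D2.Stmts
import Pool.Agent.Helper82.AHS.ThmC

/-! Module TRP of project D2: transport of invariants and pseudo-invariants by similitudes. -/

namespace Pool.Agent.Helper21.TH

open Matrix Pool.Agent.Helper82.AHS

namespace Trp

variable {r : ℕ}

theorem pw_smul {K : Type*} [CommRing K] (m : ℕ) (a : K) (x : Matrix (Fin r) (Fin r) K) :
    pw m (a • x) = a ^ m • pw m x := by
  ext i j
  simp [pw, pwf, Finset.prod_mul_distrib]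

theorem act_smul {K : Type*} [Field K] {m n : ℕ} (g : GL (Fin r) K) (a : K) (t : T r m n K) :
    act g (a • t) = a • act g t := by
  unfold act
  rw [Matrix.mul_smul, Matrix.smul_mul]

theorem smul_act {K : Type*} [Field K] {m n : ℕ} (ρ : Kˣ) (g : GL (Fin r) K) (t : T r m n K) :
    act (ρ • g) t = ((ρ : K) ^ m * ((ρ : K)⁻¹) ^ n) • act g t := by
  have h1 : ((ρ • g : GL (Fin r) K) : Matrix (Fin r) (Fin r) K) =
      (ρ : K) • (g : Matrix (Fin r) (Fin r) K) := rfl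
  have h2 : (((ρ • g)⁻¹ : GL (Fin r) K) : Matrix (Fin r) (Fin r) K) =
      (ρ : K)⁻¹ • ((g⁻¹ : GL (Fin r) K) : Matrix (Fin r) (Fin r) K) := by
    have h3 : (ρ • g)⁻¹ = ρ⁻¹ • g⁻¹ := by
      rw [inv_eq_iff_mul_eq_one]
      ext i j
      have e : (g : Matrix (Fin r) (Fin r) K) *
        ((g⁻¹ : GL (Fin r) K) : Matrix (Fin r) (Fin r) K) = 1 := gl_mul_inv g
      rw [Units.val_mul]
      change (((ρ : K) • (g : Matrix (Fin r) (Fin r) K)) *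
        (((ρ⁻¹ : Kˣ) : K) • ((g⁻¹ : GL (Fin r) K) : Matrix (Fin r) (Fin r) K))) i j = _
      rw [Matrix.smul_mul, Matrix.mul_smul, e, smul_smul]
      simp
    rw [h3]
    change ((ρ⁻¹ : Kˣ) : K) • ((g⁻¹ : GL (Fin r) K) : Matrix (Fin r) (Fin r) K) = _
    rw [Units.val_inv_eq_inv_val]
  unfold act
  rw [h1, h2, pw_smul, pw_smul, Matrix.smul_mul, Matrix.smul_mul, Matrix.mul_smul, smul_smul]

/-- The hypothesis on the pair `t₁`, `t₂`. -/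
def Inva (Q : Matrix (Fin r) (Fin r) ℚ) {m n : ℕ} (t₁ t₂ : T r m n ℚ) : Prop :=
  ∀ g : GL (Fin r) ℂ, (g : Matrix (Fin r) (Fin r) ℂ)ᵀ * Q.map (algebraMap ℚ ℂ) *
      (g : Matrix (Fin r) (Fin r) ℂ) = Q.map (algebraMap ℚ ℂ) →
    act g (up ℂ t₁) = up ℂ t₁ ∧
    act g (up ℂ t₂) = (g : Matrix (Fin r) (Fin r) ℂ).det • up ℂ t₂

/-- Similitudes. -/
theorem sim {Q : Matrix (Fin r) (Fin r) ℚ} {m n : ℕ} {t₁ t₂ : T r m n ℚ} (h : Inva Q t₁ t₂)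
    (g : GL (Fin r) ℂ) (κ : ℂ) (hκ : κ ≠ 0)
    (hg : (g : Matrix (Fin r) (Fin r) ℂ)ᵀ * Q.map (algebraMap ℚ ℂ) *
      (g : Matrix (Fin r) (Fin r) ℂ) = κ • Q.map (algebraMap ℚ ℂ)) (hm : m = n ∨ κ = 1) :
    act g (up ℂ t₁) = up ℂ t₁ ∧ ((Even r ∨ κ = 1) → act g (up ℂ t₂) =
      ((g : Matrix (Fin r) (Fin r) ℂ).det * (κ ^ (r / 2))⁻¹) • up ℂ t₂) := by
  by_cases h1 : κ = 1
  · subst h1
    rw [one_smul] at hg
    obtain ⟨h2, h3⟩ := h g hg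
    refine ⟨h2, fun _ => ?_⟩
    rw [h3, one_pow, inv_one, mul_one]
  · have hmn : m = n := hm.resolve_right h1
    subst hmn
    obtain ⟨ρ0, hρ0⟩ := IsAlgClosed.exists_pow_nat_eq κ (n := 2) (by norm_num)
    have hρ1 : ρ0 ≠ 0 := by
      rintro rfl
      exact hκ (by rw [← hρ0]; norm_num)
    obtain ⟨ρ, hρ⟩ : ∃ ρ : ℂˣ, (ρ : ℂ) = ρ0 := ⟨Units.mk0 ρ0 hρ1, rfl⟩
    have hρ2 : (ρ : ℂ) ≠ 0 := ρ.ne_zero
    have hgg : g = ρ • (ρ⁻¹ • g) := (smul_inv_smul ρ g).symm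
    set g0 : GL (Fin r) ℂ := ρ⁻¹ • g with hg0
    have hv : ((g0 : GL (Fin r) ℂ) : Matrix (Fin r) (Fin r) ℂ) =
        (ρ : ℂ)⁻¹ • (g : Matrix (Fin r) (Fin r) ℂ) := by
      rw [hg0]
      change ((ρ⁻¹ : ℂˣ) : ℂ) • (g : Matrix (Fin r) (Fin r) ℂ) = _
      rw [Units.val_inv_eq_inv_val]
    have hiso : (g0 : Matrix (Fin r) (Fin r) ℂ)ᵀ * Q.map (algebraMap ℚ ℂ) *
        (g0 : Matrix (Fin r) (Fin r) ℂ) = Q.map (algebraMap ℚ ℂ) := by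
      rw [hv, Matrix.transpose_smul, Matrix.smul_mul, Matrix.smul_mul, Matrix.mul_smul, hg,
        smul_smul, smul_smul, ← hρ0, ← hρ]
      have : (ρ : ℂ)⁻¹ * ((ρ : ℂ)⁻¹ * (ρ : ℂ) ^ 2) = 1 := by field_simp
      rw [← mul_assoc] at this
      rw [this, one_smul]
    obtain ⟨h2, h3⟩ := h g0 hiso
    have hsc : (ρ : ℂ) ^ m * ((ρ : ℂ)⁻¹) ^ m = 1 := by
      rw [← mul_pow, mul_inv_cancel₀ hρ2, one_pow]
    refine ⟨?_, fun hr => ?_⟩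
    · rw [hgg, smul_act, hsc, one_smul, h2]
    · have hr' : Even r := hr.resolve_right h1
      obtain ⟨k, hk⟩ := hr'
      have hk2 : r / 2 = k := by omega
      have hdet : (g0 : Matrix (Fin r) (Fin r) ℂ).det =
          (g : Matrix (Fin r) (Fin r) ℂ).det * (κ ^ (r / 2))⁻¹ := by
        rw [hv, Matrix.det_smul, Fintype.card_fin, hk2, ← hρ0, ← hρ, ← pow_mul, mul_comm]
        congr 1
        rw [inv_pow]
        congr 2
        omega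
      rw [← hdet]
      conv_lhs => rw [hgg, smul_act, hsc, one_smul, h3]

theorem map_map_rat {K : Type*} [Field K] [Algebra ℚ K] (φ : K →+* ℂ) {α β : Type*}
    (Q : Matrix α β ℚ) : (Q.map (algebraMap ℚ K)).map φ = Q.map (algebraMap ℚ ℂ) := by
  ext i j
  simp

/-- Comparison of two similitudes. -/
theorem cmp {K : Type*} [Field K] [Algebra ℚ K] (φ : K →+* ℂ) {Q Q' : Matrix (Fin r) (Fin r) ℚ}
    {m n : ℕ} {t₁ t₂ : T r m n ℚ} (h : Inva Q t₁ t₂) (M : GL (Fin r) ℂ) (G : GL (Fin r) K)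
    (c : ℂ) (k : K) (hc : c ≠ 0) (hk : k ≠ 0)
    (hM : (M : Matrix (Fin r) (Fin r) ℂ)ᵀ * Q'.map (algebraMap ℚ ℂ) *
      (M : Matrix (Fin r) (Fin r) ℂ) = c • Q.map (algebraMap ℚ ℂ))
    (hG : (G : Matrix (Fin r) (Fin r) K)ᵀ * Q'.map (algebraMap ℚ K) *
      (G : Matrix (Fin r) (Fin r) K) = k • Q.map (algebraMap ℚ K))
    (hmn : m = n ∨ (c = 1 ∧ k = 1)) :
    act (Matrix.GeneralLinearGroup.map φ G) (up ℂ t₁) = act M (up ℂ t₁) ∧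
    ((Even r ∨ (c = 1 ∧ k = 1)) → act (Matrix.GeneralLinearGroup.map φ G) (up ℂ t₂) =
      (φ ((G : Matrix (Fin r) (Fin r) K).det * (k ^ (r / 2))⁻¹) *
        ((M : Matrix (Fin r) (Fin r) ℂ).det * (c ^ (r / 2))⁻¹)⁻¹) • act M (up ℂ t₂)) := by
  obtain ⟨g, hg⟩ : ∃ g, g = M⁻¹ * Matrix.GeneralLinearGroup.map φ G := ⟨_, rfl⟩
  have hMg : Matrix.GeneralLinearGroup.map φ G = M * g := by rw [hg, mul_inv_cancel_left]
  have e1 := gl_mul_inv M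
  have hgv : (g : Matrix (Fin r) (Fin r) ℂ) = ((M⁻¹ : GL (Fin r) ℂ) : Matrix (Fin r) (Fin r) ℂ) *
      (G : Matrix (Fin r) (Fin r) K).map φ := by
    rw [hg, Units.val_mul]
    rfl
  have hφk : φ k ≠ 0 := (map_ne_zero φ).mpr hk
  have hGφ : ((G : Matrix (Fin r) (Fin r) K).map φ)ᵀ * Q'.map (algebraMap ℚ ℂ) *
      (G : Matrix (Fin r) (Fin r) K).map φ = φ k • Q.map (algebraMap ℚ ℂ) := by
    have h1 := congrArg (fun X : Matrix (Fin r) (Fin r) K => X.map φ) hG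
    simp only [Matrix.map_mul, map_map_rat, Matrix.transpose_map] at h1
    rw [h1]
    ext i j
    simp
  have hκ : φ k * c⁻¹ ≠ 0 := mul_ne_zero hφk (inv_ne_zero hc)
  have hgg : (g : Matrix (Fin r) (Fin r) ℂ)ᵀ * Q.map (algebraMap ℚ ℂ) *
      (g : Matrix (Fin r) (Fin r) ℂ) = (φ k * c⁻¹) • Q.map (algebraMap ℚ ℂ) := by
    have h1 : Q.map (algebraMap ℚ ℂ) = c⁻¹ • ((M : Matrix (Fin r) (Fin r) ℂ)ᵀ *
        Q'.map (algebraMap ℚ ℂ) * (M : Matrix (Fin r) (Fin r) ℂ)) := by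
      rw [hM, smul_smul, inv_mul_cancel₀ hc, one_smul]
    have e2 : ((M⁻¹ : GL (Fin r) ℂ) : Matrix (Fin r) (Fin r) ℂ)ᵀ *
        (M : Matrix (Fin r) (Fin r) ℂ)ᵀ = 1 := by
      rw [← Matrix.transpose_mul, e1, Matrix.transpose_one]
    rw [hgv]
    conv_lhs => rw [h1]
    rw [Matrix.mul_smul, Matrix.smul_mul, mul_comm (φ k), ← smul_smul, ← hGφ]
    congr 1
    rw [Matrix.transpose_mul]
    set M' := ((M⁻¹ : GL (Fin r) ℂ) : Matrix (Fin r) (Fin r) ℂ)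
    set M0 := (M : Matrix (Fin r) (Fin r) ℂ)
    set G0 := (G : Matrix (Fin r) (Fin r) K).map φ
    set Q0 := Q'.map (algebraMap ℚ ℂ)
    calc G0ᵀ * M'ᵀ * (M0ᵀ * Q0 * M0) * (M' * G0) = G0ᵀ * (M'ᵀ * M0ᵀ) * Q0 * (M0 * M') * G0 := by
          simp only [Matrix.mul_assoc]
      _ = _ := by rw [e1, e2, Matrix.mul_one, Matrix.mul_one]
  have hone : (c = 1 ∧ k = 1) → φ k * c⁻¹ = 1 := by
    rintro ⟨rfl, rfl⟩
    rw [map_one, inv_one, mul_one]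
  obtain ⟨h1, h2⟩ := sim h g _ hκ hgg (hmn.imp id hone)
  refine ⟨?_, fun hr => ?_⟩
  · rw [hMg, act_mul, h1]
  · rw [hMg, act_mul, h2 (hr.imp id hone), act_smul]
    congr 1
    have hdet : (g : Matrix (Fin r) (Fin r) ℂ).det =
        ((M : Matrix (Fin r) (Fin r) ℂ).det)⁻¹ * φ (G : Matrix (Fin r) (Fin r) K).det := by
      rw [hgv, Matrix.det_mul]
      congr 1
      · have h3 := congrArg Matrix.det e1
        rw [Matrix.det_mul, Matrix.det_one] at h3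
        exact eq_inv_of_mul_eq_one_right h3
      · exact (RingHom.map_det φ _).symm
    rw [hdet, map_mul, map_inv₀, map_pow, mul_pow, mul_inv, mul_inv, inv_pow, inv_inv]
    ring

theorem rational {m n : ℕ} {u : T r m n ℂ} (hu : ∀ τ : ℂ ≃+* ℂ, u.map (τ : ℂ →+* ℂ) = u) :
    ∃ a : T r m n ℚ, up ℂ a = u := by
  have h2 : ∀ i j, ∃ q : ℚ, (q : ℂ) = u i j := fun i j =>
    rat_of_fixed _ fun τ => congrFun (congrFun (hu τ) i) j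
  choose a ha using h2
  exact ⟨of a, by ext i j; exact ha i j⟩

theorem det_rel {K : Type*} [Field K] [Algebra ℚ K] {Q Q' : Matrix (Fin r) (Fin r) ℚ}
    (hQ' : Q'.det ≠ 0) (G : GL (Fin r) K) (k : K) (hk : k ≠ 0)
    (hG : (G : Matrix (Fin r) (Fin r) K)ᵀ * Q'.map (algebraMap ℚ K) *
      (G : Matrix (Fin r) (Fin r) K) = k • Q.map (algebraMap ℚ K)) (hr : Even r ∨ k = 1) :
    ((G : Matrix (Fin r) (Fin r) K).det * (k ^ (r / 2))⁻¹) *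
      ((G : Matrix (Fin r) (Fin r) K).det * (k ^ (r / 2))⁻¹) =
      algebraMap ℚ K (Q.det / Q'.det) := by
  have h1 := congrArg Matrix.det hG
  have hd : ∀ X : Matrix (Fin r) (Fin r) ℚ, (X.map (algebraMap ℚ K)).det =
      algebraMap ℚ K X.det := fun X => (RingHom.map_det (algebraMap ℚ K) X).symm
  rw [Matrix.det_mul, Matrix.det_mul, Matrix.det_transpose, Matrix.det_smul, Fintype.card_fin,
    hd, hd] at h1
  have hQ0 : algebraMap ℚ K Q'.det ≠ 0 := (map_ne_zero _).mpr hQ'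
  have h2 : k ^ r = k ^ (r / 2) * k ^ (r / 2) := by
    rcases hr with hr | hr
    · obtain ⟨a, ha⟩ := hr
      rw [← pow_add]
      congr 1
      omega
    · rw [hr]; simp
  have h3 : k ^ (r / 2) ≠ 0 := pow_ne_zero _ hk
  rw [map_div₀]
  rw [h2] at h1
  field_simp
  linear_combination h1

end Trp

open Trp

theorem st_TRP (hS : ST_SQR) : ST_TRP := by
  intro r Q Q' M E c e hQ hQ' hc he hM hE
  classical
  -- first components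
  have first : ∀ (m n : ℕ) (t₁ t₂ : T r m n ℚ), Inva Q t₁ t₂ →
      (m = n ∨ (c = 1 ∧ ∀ ℓ, e ℓ = 1)) → ∃ a : T r m n ℚ, up ℂ a = act M (up ℂ t₁) ∧
        ∀ ℓ : Nat.Primes, up (@Padic ℓ ⟨ℓ.2⟩) a = act (E ℓ) (up (@Padic ℓ ⟨ℓ.2⟩) t₁) := by
    intro m n t₁ t₂ h hmn
    have hr : ∃ a : T r m n ℚ, up ℂ a = act M (up ℂ t₁) := by
      refine rational fun τ => ?_
      rw [act_map, up_map]
      have hM' : (M : Matrix (Fin r) (Fin r) ℂ)ᵀ * Q'.map (algebraMap ℚ ℂ) *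
        (M : Matrix (Fin r) (Fin r) ℂ) = c • Q.map (algebraMap ℚ ℂ) := hM
      exact (cmp (τ : ℂ →+* ℂ) h M M c c hc hc hM hM' (hmn.imp id fun h => ⟨h.1, h.1⟩)).1
    obtain ⟨a, ha⟩ := hr
    refine ⟨a, ha, fun ℓ => ?_⟩
    have : Fact (ℓ : ℕ).Prime := ⟨ℓ.2⟩
    obtain ⟨ι⟩ := exists_emb ℓ
    have h1 := (cmp ι h M (E ℓ) c (e ℓ) hc (he ℓ) hM (hE ℓ)
      (hmn.imp id fun h => ⟨h.1, h.2 ℓ⟩)).1
    have h2 := act_map ι (E ℓ) (up ℚ_[ℓ] t₁)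
    rw [up_map, h1, ← ha] at h2
    change up ℚ_[ℓ] a = act (E ℓ) (up ℚ_[ℓ] t₁)
    ext i j
    have h3 := congrFun (congrFun ((up_map ι a).trans h2.symm) i) j
    simp only [Matrix.map_apply] at h3
    exact ι.injective h3
  by_cases hcase : Even r ∨ (c = 1 ∧ ∀ ℓ, e ℓ = 1)
  swap
  · refine ⟨fun _ => 1, fun _ => Or.inl rfl, fun m n t₁ t₂ h hmn h3 => ?_⟩
    have ht2 : t₂ = 0 := by
      rcases h3 with h3 | h3
      · exact h3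
      · exact absurd h3 hcase
    obtain ⟨a, ha, ha'⟩ := first m n t₁ t₂ h hmn
    have hz : ∀ (K : Type) [Field K] [Algebra ℚ K], up K (0 : T r m n ℚ) = 0 := by
      intro K _ _
      ext i j
      simp [up]
    have hz2 : ∀ (K : Type) [Field K] (g : GL (Fin r) K), act g (0 : T r m n K) = 0 := by
      intro K _ g
      unfold act
      rw [Matrix.mul_zero, Matrix.zero_mul]
    refine ⟨a, 0, ha, ?_, fun ℓ => ⟨ha' ℓ, ?_⟩⟩
    · rw [ht2, hz, hz2]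
    · rw [ht2, smul_zero]
      have : Fact (ℓ : ℕ).Prime := ⟨ℓ.2⟩
      change up ℚ_[ℓ] 0 = act (E ℓ) (up ℚ_[ℓ] 0)
      rw [hz, hz2]
  -- the determinants
  obtain ⟨D, hD⟩ : ∃ D, D = (M : Matrix (Fin r) (Fin r) ℂ).det * (c ^ (r / 2))⁻¹ := ⟨_, rfl⟩
  have hD2 : D * D = algebraMap ℚ ℂ (Q.det / Q'.det) := by
    rw [hD]; exact det_rel hQ' M c hc hM (hcase.imp id fun h => h.1)
  obtain ⟨z, hz⟩ := hS (Q.det / Q'.det) (fun ℓ => by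
    have : Fact (ℓ : ℕ).Prime := ⟨ℓ.2⟩
    exact ⟨_, det_rel (K := ℚ_[ℓ]) hQ' (E ℓ) (e ℓ) (he ℓ) (hE ℓ) (hcase.imp id fun h => h.2 ℓ)⟩)
  have hz0 : z ≠ 0 := by
    rintro rfl
    rw [mul_zero] at hz
    exact div_ne_zero hQ hQ' hz.symm
  obtain ⟨y, hy0, hy⟩ : ∃ y : ℚ, y ≠ 0 ∧ D = algebraMap ℚ ℂ y ∧ y * y = Q.det / Q'.det := by
    have h1 : D * D = algebraMap ℚ ℂ z * algebraMap ℚ ℂ z := by rw [hD2, ← hz, map_mul]
    rcases mul_self_eq_mul_self_iff.mp h1 with h | h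
    · exact ⟨z, hz0, h, hz⟩
    · exact ⟨-z, neg_ne_zero.mpr hz0, by rw [h, map_neg], by rw [neg_mul_neg, hz]⟩
  have hs : ∀ ℓ : Nat.Primes, ∃ s : ℚ, (s = 1 ∨ s = -1) ∧
      (E ℓ : Matrix (Fin r) (Fin r) (@Padic ℓ ⟨ℓ.2⟩)).det * (e ℓ ^ (r / 2))⁻¹ =
        algebraMap ℚ (@Padic ℓ ⟨ℓ.2⟩) (s * y) := by
    intro ℓ
    have : Fact (ℓ : ℕ).Prime := ⟨ℓ.2⟩
    have h1 := det_rel (K := ℚ_[ℓ]) hQ' (E ℓ) (e ℓ) (he ℓ) (hE ℓ) (hcase.imp id fun h => h.2 ℓ)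
    rw [← hy.2, map_mul] at h1
    rcases mul_self_eq_mul_self_iff.mp h1 with h | h
    · exact ⟨1, Or.inl rfl, by rw [one_mul]; exact h⟩
    · exact ⟨-1, Or.inr rfl, by rw [neg_one_mul, map_neg]; exact h⟩
  choose s hs1 hs2 using hs
  refine ⟨s, hs1, fun m n t₁ t₂ h hmn _ => ?_⟩
  obtain ⟨a, ha, ha'⟩ := first m n t₁ t₂ h hmn
  have hDne : D ≠ 0 := by
    rw [hy.1]; exact (map_ne_zero _).mpr hy0
  have hb : ∃ b : T r m n ℚ, up ℂ b = act M (up ℂ t₂) := by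
    refine rational fun τ => ?_
    rw [act_map, up_map]
    have h1 := (cmp (τ : ℂ →+* ℂ) h M M c c hc hc hM hM (hmn.imp id fun h => ⟨h.1, h.1⟩)).2
      (hcase.imp id fun h => ⟨h.1, h.1⟩)
    rw [h1, ← hD, hy.1]
    have h2 : (τ : ℂ →+* ℂ) (algebraMap ℚ ℂ y) = algebraMap ℚ ℂ y := by simp
    rw [h2, mul_inv_cancel₀ ((map_ne_zero _).mpr hy0), one_smul]
  obtain ⟨b, hb⟩ := hb
  refine ⟨a, b, ha, hb, fun ℓ => ⟨ha' ℓ, ?_⟩⟩
  have : Fact (ℓ : ℕ).Prime := ⟨ℓ.2⟩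
  obtain ⟨ι⟩ := exists_emb ℓ
  have h1 := (cmp ι h M (E ℓ) c (e ℓ) hc (he ℓ) hM (hE ℓ)
    (hmn.imp id fun h => ⟨h.1, h.2 ℓ⟩)).2 (hcase.imp id fun h => ⟨h.1, h.2 ℓ⟩)
  have h2 := act_map ι (E ℓ) (up ℚ_[ℓ] t₂)
  have h4 : (E ℓ : Matrix (Fin r) (Fin r) ℚ_[ℓ]).det * (e ℓ ^ (r / 2))⁻¹ =
      algebraMap ℚ ℚ_[ℓ] (s ℓ * y) := hs2 ℓ
  have h5 : ι (algebraMap ℚ ℚ_[ℓ] (s ℓ * y)) * D⁻¹ = algebraMap ℚ ℂ (s ℓ) := by
    have h6 : ι (algebraMap ℚ ℚ_[ℓ] (s ℓ * y)) = algebraMap ℚ ℂ (s ℓ * y) := by simp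
    rw [h6, map_mul, hy.1, mul_assoc, mul_inv_cancel₀ ((map_ne_zero _).mpr hy0), mul_one]
  rw [h4, ← hD, h5] at h1
  have h7 : up ℂ (s ℓ • b) = algebraMap ℚ ℂ (s ℓ) • act M (up ℂ t₂) := by
    rw [← hb]
    ext i j
    simp [up]
  rw [up_map, h1, ← h7] at h2
  change up ℚ_[ℓ] (s ℓ • b) = act (E ℓ) (up ℚ_[ℓ] t₂)
  ext i j
  have h3 := congrFun (congrFun ((up_map ι (s ℓ • b)).trans h2.symm) i) j
  simp only [Matrix.map_apply] at h3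
  exact ι.injective h3

end Pool.Agent.Helper21.TH
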